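import Pool.Agent.H773.IE.SR

set_option autoImplicit false
set_option linter.all false

open MeasureTheory Set Filter Topology
open scoped ENNReal

namespace Pool.Agent.H407.IE

open Pool.Agent.H773.IE

section basic

variable {m : ℕ}

/-- lower bound for the probability of a list of outcomes of length `n` from balanced heights -/
noncomputable def low : ℕ → ℝ → ℝ
  | 0, _ => 1
  | n + 1, R => (1 / (1 + R)) * low n (2 * R)

theorem low_pos (n : ℕ) : ∀ R : ℝ, 0 ≤ R → 0 < low n R := by
  induction n with
  | zero => intro R _; exact one_pos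
  | succ n ih =>
    intro R hR
    have := ih (2 * R) (by positivity)
    unfold low
    positivity

theorem bal_nxt {s : Sta m} {q : Fin (m + 1) → ℝ} (hq : ∀ i, 0 < q i) {R : ℝ} (hR : 0 ≤ R)
    (h : Bal R q) (b : Bool) : Bal (2 * R) (nxtQ s b q) := by
  intro i j
  have hj : q j ≤ nxtQ s b q j := by
    rw [nxtQ, Function.update_apply]
    split_ifs with h1
    · subst h1
      have := hq (win s b)
      linarith
    · exact le_rfl
  have hi : nxtQ s b q i ≤ 2 * R * q j := by
    rw [nxtQ, Function.update_apply]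
    split_ifs with h1
    · have h2 := h (los s b) j
      have h3 := h (win s b) j
      linarith
    · have h2 := h i j
      have h3 : 0 ≤ R * q j := mul_nonneg hR (hq j).le
      linarith
  refine hi.trans ?_
  exact mul_le_mul_of_nonneg_left hj (by positivity)

theorem low_le (p : List Bool) : ∀ (s : Sta m) (q : Fin (m + 1) → ℝ) (R : ℝ), (∀ i, 0 < q i) →
    0 ≤ R → Bal R q → low p.length R ≤ prP p s q := by
  induction p with
  | nil => intro s q R _ _ _; exact le_rfl
  | cons b p ih =>
    intro s q R hq hR hB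
    have h1 := ih (nxt s b) (nxtQ s b q) (2 * R) (nxtQ_pos hq b) (by positivity)
      (bal_nxt hq hR hB b)
    have h2 : 1 / (1 + R) ≤ pr s b q := by
      unfold pr
      have h3 := hq (los s b)
      have h4 := hq (win s b)
      have h5 := hB (win s b) (los s b)
      rw [div_le_div_iff₀ (by positivity) (by positivity)]
      linarith
    show 1 / (1 + R) * low p.length (2 * R) ≤ pr s b q * prP p (nxt s b) (nxtQ s b q)
    exact mul_le_mul h2 h1 (low_pos _ _ (by positivity)).le (pr_nonneg s hq b)

theorem cyl_comp (p : List Bool) : ∀ (p' : List Bool) (s : Sta m) (lam : Fin (m + 1) → ℝ),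
    Cyl p s lam → Cyl p' s lam → p <+: p' ∨ p' <+: p := by
  induction p with
  | nil => intro p' s lam _ _; exact Or.inl (List.nil_prefix)
  | cons b p ih =>
    intro p' s lam h h'
    cases p' with
    | nil => exact Or.inr (List.nil_prefix)
    | cons b' p' =>
      have hb : b = b' := by
        have h1 := h.1
        have h2 := h'.1
        cases b <;> cases b'
        · rfl
        · simp only [los, win, Bool.false_eq_true, if_false, if_true] at h1 h2
          exact absurd h1 (not_lt.2 h2.le)
        · simp only [los, win, Bool.false_eq_true, if_false, if_true] at h1 h2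
          exact absurd h1 (not_lt.2 h2.le)
        · rfl
      subst hb
      rcases ih p' _ _ h.2 h'.2 with h3 | h3
      · exact Or.inl ((List.prefix_cons_inj b).2 h3)
      · exact Or.inr ((List.prefix_cons_inj b).2 h3)

theorem cyl_prefix {p p' : List Bool} (h : p' <+: p) {s : Sta m} {lam : Fin (m + 1) → ℝ}
    (hc : Cyl p s lam) : Cyl p' s lam := by
  obtain ⟨t, rfl⟩ := h
  exact ((Cyl_append p' t s lam).1 hc).1

theorem irr_run (hirr : S_irr) (hm : 1 ≤ m) (p : List Bool) : ∀ s : Sta m, IrrS s →
    IrrS (run p s) := by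
  induction p with
  | nil => intro s h; exact h
  | cons b p ih => intro s h; exact ih _ (hirr m hm s h b)

theorem EE_univ (hlink : S_link) (hm : 1 ≤ m) {s : Sta m} (hs : IrrS s) {q : Fin (m + 1) → ℝ}
    (hq : ∀ i, 0 < q i) : EE q Set.univ = 1 := by
  have h := hlink m hm (fun _ _ => True) s hs q hq
  have h1 : {lam : Fin (m + 1) → ℝ | ∃ p, Cyl p s lam ∧ True} = Set.univ := by
    ext lam
    simp only [Set.mem_setOf_eq, Set.mem_univ, iff_true]
    exact ⟨[], trivial, trivial⟩
  rw [h1] at h
  rw [← h, hP]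
  have h2 : ∀ k, hk (fun (_ : Sta m) (_ : Fin (m + 1) → ℝ) => True) k s q = 1 := by
    intro k
    cases k <;> simp [hk]
  simp only [h2]
  exact ciSup_const

end basic

theorem t_io1 (hirr : S_irr) (hlawp : S_lawp) (hlink : S_link) : S_io1 := by
  intro m hm γ R c hc hyp
  set R1 : ℝ := max R 1 with hR1
  have hR10 : 0 ≤ R1 := zero_le_one.trans (le_max_right _ _)
  obtain ⟨s₀, -, hs₀⟩ := Finset.exists_min_image (Finset.univ : Finset (Sta m))
    (fun s => low (γ s).length R1) Finset.univ_nonempty
  set c1 : ℝ := low (γ s₀).length R1 with hc1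
  have hc10 : 0 < c1 := low_pos _ _ hR10
  refine ⟨ENNReal.ofReal c1 * c, ENNReal.mul_pos (ENNReal.ofReal_pos.2 hc10).ne' hc.ne', ?_⟩
  intro s hs q hq
  set T : Sta m → (Fin (m + 1) → ℝ) → Prop :=
    fun s' q' => IrrS s' ∧ (∀ i, 0 < q' i) ∧ Bal R q' with hT
  -- first hitting paths
  let PP : Set (List Bool) := {p | T (run p s) (runQ p s q) ∧
    ∀ p', p' <+: p → p' ≠ p → ¬ T (run p' s) (runQ p' s q)}
  let F : PP → Set (Fin (m + 1) → ℝ) := fun p => {lam | Cyl p.1 s lam}
  let F' : PP → Set (Fin (m + 1) → ℝ) := fun p => {lam | Cyl (p.1 ++ γ (run p.1 s)) s lam}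
  have hFF' : ∀ p, F' p ⊆ F p := fun p lam h => cyl_prefix (List.prefix_append _ _) h
  have hdisj : ∀ p p' : PP, p ≠ p' → Disjoint (F p) (F p') := by
    intro p p' hne
    rw [Set.disjoint_left]
    intro lam h h'
    apply hne
    apply Subtype.ext
    rcases cyl_comp p.1 p'.1 s lam h h' with h1 | h1
    · by_contra h2
      exact p'.2.2 p.1 h1 h2 p.2.1
    · by_contra h2
      exact p.2.2 p'.1 h1 (Ne.symm h2) p'.2.1
  have hmF' : ∀ p, MeasurableSet (F' p) := fun p =>
    (hlawp m hm s hs q hq (p.1 ++ γ (run p.1 s)) Set.univ MeasurableSet.univ).1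
  -- probabilities
  have hEF : ∀ p : PP, EE q (F p) = ENNReal.ofReal (prP p.1 s q) := by
    intro p
    have h := (hlawp m hm s hs q hq p.1 Set.univ MeasurableSet.univ).2.2
    have h1 : {lam : Fin (m + 1) → ℝ | Cyl p.1 s lam ∧ runL p.1 s lam ∈ (Set.univ : Set _)} =
        F p := by
      ext lam
      simp [F]
    rw [h1, EE_univ hlink hm (irr_run hirr hm p.1 s hs) (runQ_pos hq p.1), mul_one] at h
    exact h
  have hEF' : ∀ p : PP, ENNReal.ofReal c1 * EE q (F p) ≤ EE q (F' p) := by
    intro p
    have hrs := irr_run hirr hm p.1 s hs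
    have hrq := runQ_pos (s := s) hq p.1
    have h := (hlawp m hm s hs q hq (p.1 ++ γ (run p.1 s)) Set.univ MeasurableSet.univ).2.2
    have h1 : {lam : Fin (m + 1) → ℝ | Cyl (p.1 ++ γ (run p.1 s)) s lam ∧
        runL (p.1 ++ γ (run p.1 s)) s lam ∈ (Set.univ : Set _)} = F' p := by
      ext lam
      simp [F']
    rw [h1, EE_univ hlink hm (irr_run hirr hm (p.1 ++ γ (run p.1 s)) s hs)
      (runQ_pos hq (p.1 ++ γ (run p.1 s))), mul_one, prP_append] at h
    rw [h, hEF p, mul_comm (ENNReal.ofReal c1), ENNReal.ofReal_mul (by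
      have : ∀ (l : List Bool) (s : Sta m) (q : Fin (m + 1) → ℝ), (∀ i, 0 < q i) →
          0 ≤ prP l s q := by
        intro l
        induction l with
        | nil => intro s q _; exact zero_le_one
        | cons b l ih =>
          intro s q hq
          exact mul_nonneg (pr_nonneg s hq b) (ih _ _ (nxtQ_pos hq b))
      exact this _ _ _ hq)]
    refine mul_le_mul_right (ENNReal.ofReal_le_ofReal ?_) _
    have hB : Bal R1 (runQ p.1 s q) := by
      intro i j
      refine (p.2.1.2.2 i j).trans ?_
      exact mul_le_mul_of_nonneg_right (le_max_left _ _) (hrq j).le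
    exact (hs₀ (run p.1 s) (Finset.mem_univ _)).trans (low_le _ _ _ _ hrq hR10 hB)
  -- the events
  have hE : c ≤ ∑' p : PP, EE q (F p) := by
    refine (hyp s hs q hq).trans ?_
    rw [hlink m hm T s hs q hq]
    refine (measure_mono ?_).trans (measure_iUnion_le F)
    rintro lam ⟨p, hp, hTp⟩
    obtain ⟨p0, hp0, hmin⟩ := WellFounded.has_min (measure (List.length (α := Bool))).wf
      {p : List Bool | Cyl p s lam ∧ T (run p s) (runQ p s q)} ⟨p, hp, hTp⟩
    rw [Set.mem_iUnion]
    refine ⟨⟨p0, hp0.2, fun p' hpre hne hTp' => ?_⟩, hp0.1⟩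
    refine hmin p' ⟨cyl_prefix hpre hp0.1, hTp'⟩ ?_
    show p'.length < p0.length
    refine lt_of_le_of_ne hpre.length_le fun h => hne (hpre.eq_of_length h)
  calc ENNReal.ofReal c1 * c ≤ ENNReal.ofReal c1 * ∑' p : PP, EE q (F p) :=
        mul_le_mul_right hE _
    _ = ∑' p : PP, ENNReal.ofReal c1 * EE q (F p) := ENNReal.tsum_mul_left.symm
    _ ≤ ∑' p : PP, EE q (F' p) := ENNReal.tsum_le_tsum hEF'
    _ = EE q (⋃ p : PP, F' p) := by
        rw [measure_iUnion (fun p p' hne => (hdisj p p' hne).mono (hFF' p) (hFF' p')) hmF']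
    _ ≤ _ := by
        refine measure_mono ?_
        intro lam hlam
        obtain ⟨p, hp⟩ := Set.mem_iUnion.1 hlam
        exact ⟨p.1, hp, p.2.1.2.2⟩

end Pool.Agent.H407.IE
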